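/-
Helper for module MP of the project on the two series for 1/pi: the algebraic identities behind the
pull back of the differential equation.
-/
import Pool.Agent.H22.Pi.Defs

set_option autoImplicit false

namespace Pool.Agent.H21.Pi

open Pool.Agent.H22.Pi

/-- `w d/dw S6`. -/
def T1 (w : ℂ) : ℂ := -8 * w + 16 * w ^ 2 - 54 * w ^ 3 + 32 * w ^ 4 - 40 * w ^ 5 + 6 * w ^ 6
/-- `(w d/dw)^2 S6`. -/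
def T2 (w : ℂ) : ℂ := -8 * w + 32 * w ^ 2 - 162 * w ^ 3 + 128 * w ^ 4 - 200 * w ^ 5 + 36 * w ^ 6
/-- `(w d/dw)^3 S6`. -/
def T3 (w : ℂ) : ℂ := -8 * w + 64 * w ^ 2 - 486 * w ^ 3 + 512 * w ^ 4 - 1000 * w ^ 5 + 216 * w ^ 6

/-- `w d/dw Nw`. -/
def N1 (w : ℂ) : ℂ :=
  -4 * w + 24 * w ^ 2 - 336 * w ^ 3 + 2000 * w ^ 4 - 5800 * w ^ 5 + 10056 * w ^ 6 - 14112 * w ^ 7
    + 13408 * w ^ 8 - 10440 * w ^ 9 + 5000 * w ^ 10 - 1232 * w ^ 11 + 144 * w ^ 12 - 52 * w ^ 13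

/-- The logarithmic derivative of `B = sqrt(S6)/((1-w)(1+w^2))`. -/
noncomputable def be (w : ℂ) : ℂ := T1 w / (2 * S6 w) + w / (1 - w) - 2 * w ^ 2 / (1 + w ^ 2)
noncomputable def be1 (w : ℂ) : ℂ :=
  T2 w / (2 * S6 w) - T1 w ^ 2 / (2 * S6 w ^ 2) + w / (1 - w) ^ 2 - 4 * w ^ 2 / (1 + w ^ 2) ^ 2
noncomputable def be2 (w : ℂ) : ℂ :=
  T3 w / (2 * S6 w) - 3 * T1 w * T2 w / (2 * S6 w ^ 2) + T1 w ^ 3 / S6 w ^ 3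
    + w * (1 + w) / (1 - w) ^ 3 - 8 * w ^ 2 * (1 - w ^ 2) / (1 + w ^ 2) ^ 3
noncomputable def cf (w : ℂ) : ℂ := (1 - w ^ 2) / (1 + w ^ 2)
noncomputable def cf1 (w : ℂ) : ℂ := -4 * w ^ 2 / (1 + w ^ 2) ^ 2
noncomputable def cf2 (w : ℂ) : ℂ := -8 * w ^ 2 * (1 - w ^ 2) / (1 + w ^ 2) ^ 3
noncomputable def Rf (w : ℂ) : ℂ := Nw w / (4 * S6 w ^ 2 * (1 - w) ^ 2)
noncomputable def Rf1 (w : ℂ) : ℂ :=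
  N1 w / (4 * S6 w ^ 2 * (1 - w) ^ 2) - Nw w * T1 w / (2 * S6 w ^ 3 * (1 - w) ^ 2)
    + Nw w * w / (2 * S6 w ^ 2 * (1 - w) ^ 3)

theorem l3_eq (w : ℂ) (hb : 1 + w ^ 2 ≠ 0) :
    l3 (w / (1 + w ^ 2)) = S6 w * (1 - w) ^ 6 * (1 + w) ^ 2 / (1 + w ^ 2) ^ 7 := by
  unfold l3 S6
  field_simp
  ring

theorem coef2 (w : ℂ) (hs : S6 w ≠ 0) (ha : 1 - w ≠ 0) (hb : 1 + w ^ 2 ≠ 0) :
    3 * cf w * cf1 w + 3 * be w * cf w ^ 2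
      = (1 + w) * (1 + w ^ 2) ^ 4 / (S6 w * (1 - w) ^ 3) * l2 (w / (1 + w ^ 2)) := by
  unfold cf cf1 be l2
  field_simp
  unfold T1 S6
  ring

theorem coef1 (w : ℂ) (hs : S6 w ≠ 0) (ha : 1 - w ≠ 0) (hb : 1 + w ^ 2 ≠ 0) :
    cf2 w + 3 * be1 w * cf w + 3 * be w * cf1 w + 3 * be w ^ 2 * cf w - 4 * Rf w * cf w
      = (1 + w) * (1 + w ^ 2) ^ 4 / (S6 w * (1 - w) ^ 3) * l1 (w / (1 + w ^ 2)) := by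
  unfold cf cf1 cf2 be be1 Rf l1
  field_simp
  unfold T1 T2 S6 Nw
  ring

theorem coef0 (w : ℂ) (hs : S6 w ≠ 0) (ha : 1 - w ≠ 0) (hb : 1 + w ^ 2 ≠ 0) :
    be2 w + 3 * be w * be1 w + be w ^ 3 - 4 * Rf w * be w - 2 * Rf1 w
      = (1 + w) * (1 + w ^ 2) ^ 4 / (S6 w * (1 - w) ^ 3) * l0 (w / (1 + w ^ 2)) := by
  unfold be be1 be2 Rf Rf1 l0
  field_simp
  unfold T1 T2 T3 S6 Nw N1
  ring

theorem coef3 (w : ℂ) (hs : S6 w ≠ 0) (ha : 1 - w ≠ 0) (hb : 1 + w ^ 2 ≠ 0) :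
    cf w ^ 3 = (1 + w) * (1 + w ^ 2) ^ 4 / (S6 w * (1 - w) ^ 3) * l3 (w / (1 + w ^ 2)) := by
  rw [l3_eq w hb]
  unfold cf
  field_simp
  ring

end Pool.Agent.H21.Pi
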