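/-
Module GL of the project on the two series for 1/pi: a function on the upper half plane which is
invariant under the Atkin-Lehner type matrices of squarefree level and which tends to zero at
infinity vanishes.
-/
import Pool.Agent.H22.Pi.Defs

set_option autoImplicit false

namespace Pool.Agent.H21.Pi

open Pool.Agent.H22.Pi
open Complex Filter Asymptotics UpperHalfPlane
open scoped Real Topology MatrixGroups ModularForm Manifold

/-- Arithmetic of the cusps: every `gamma` in `SL(2,Z)` factors through an Atkin-Lehner matrix. -/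
theorem cusp_factor (N : ℕ) (hN : Squarefree N) (a b c d : ℤ) (hdet : a * d - b * c = 1) :
    ∃ (e : ℕ) (β δ j : ℤ), 0 < e ∧ e ∣ N ∧ (N : ℤ) ∣ e * c ∧ e * a * δ - β * c = 1 ∧
      a * j + β = b ∧ c * j + e * δ = d := by
  have hN0 : N ≠ 0 := hN.ne_zero
  set g := Nat.gcd c.natAbs N with hg
  have hgpos : 0 < g := Nat.gcd_pos_of_pos_right _ (Nat.pos_of_ne_zero hN0)
  obtain ⟨e, he⟩ : g ∣ N := Nat.gcd_dvd_right _ _
  have hepos : 0 < e := by
    rcases Nat.eq_zero_or_pos e with h | h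
    · rw [h, mul_zero] at he; exact absurd he hN0
    · exact h
  have hcop : Nat.Coprime g e := by
    have := hN
    rw [he] at this
    exact (Nat.squarefree_mul_iff.mp this).1
  have hec : Nat.Coprime e c.natAbs := by
    rw [Nat.coprime_iff_gcd_eq_one]
    have h1 : Nat.gcd e c.natAbs ∣ g := by
      apply Nat.dvd_gcd (Nat.gcd_dvd_right _ _)
      exact (Nat.gcd_dvd_left _ _).trans ⟨g, by rw [he, mul_comm]⟩
    have h2 : Nat.gcd e c.natAbs ∣ e := Nat.gcd_dvd_left _ _
    have h3 : Nat.gcd e c.natAbs ∣ Nat.gcd g e := Nat.dvd_gcd h1 h2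
    rw [hcop.gcd_eq_one] at h3
    exact Nat.dvd_one.mp h3
  have hecZ : IsCoprime (e : ℤ) c := by
    rw [Int.isCoprime_iff_nat_coprime]
    simpa using hec
  have hac : IsCoprime a c := ⟨d, -b, by linarith⟩
  obtain ⟨u, v, huv⟩ : IsCoprime ((e : ℤ) * a) c := hecZ.mul_left hac
  refine ⟨e, -v, u, e * u * b + v * d, hepos, ⟨g, by rw [he, mul_comm]⟩, ?_, by linarith, ?_, ?_⟩
  · have h1 : (g : ℤ) ∣ c := by
      rw [Int.natCast_dvd]
      exact Nat.gcd_dvd_left _ _
    obtain ⟨k, hk⟩ := h1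
    refine ⟨k, ?_⟩
    rw [he, hk]; push_cast; ring
  · linear_combination b * huv + v * hdet
  · linear_combination d * huv - (e : ℤ) * u * hdet

/-- The restriction of a function on the complex numbers to the upper half plane, under `SL(2,Z)`. -/
theorem slash_zero_apply (F : ℂ → ℂ) (γ : SL(2, ℤ)) (τ : ℍ) :
    ((fun τ : ℍ => F (τ : ℂ)) ∣[(0 : ℤ)] γ) τ
      = F (((γ 0 0 : ℤ) * (τ : ℂ) + (γ 0 1 : ℤ)) / ((γ 1 0 : ℤ) * (τ : ℂ) + (γ 1 1 : ℤ))) := by
  rw [ModularForm.SL_slash_apply]
  have := UpperHalfPlane.coe_specialLinearGroup_apply γ τ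
  simp only [neg_zero, zpow_zero, mul_one]
  rw [this]
  simp

theorem gl : GlStmt := by
  intro N hN F hF hinv hzero
  have hN0 : N ≠ 0 := hN.ne_zero
  have : NeZero N := ⟨hN0⟩
  -- behaviour under `SL(2,Z)`
  have hSL : ∀ γ : SL(2, ℤ), IsZeroAtImInfty ((fun τ : ℍ => F (τ : ℂ)) ∣[(0 : ℤ)] γ) := by
    intro γ
    have hdet : γ 0 0 * γ 1 1 - γ 0 1 * γ 1 0 = 1 := by
      have := γ.det_coe
      rw [Matrix.det_fin_two] at this
      exact this
    obtain ⟨e, β, δ, j, he, heN, hNc, hW, hj1, hj2⟩ := cusp_factor N hN _ _ _ _ hdet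
    have heC : (e : ℂ) ≠ 0 := by exact_mod_cast he.ne'
    have heR : (0 : ℝ) < e := by exact_mod_cast he
    have him : ∀ τ : ℍ, (((τ : ℂ) + j) / e).im = τ.im / e := by
      intro τ
      rw [Complex.div_natCast_im]
      simp
    have key : ∀ τ : ℍ, ((fun τ : ℍ => F (τ : ℂ)) ∣[(0 : ℤ)] γ) τ = F (((τ : ℂ) + j) / e) := by
      intro τ
      rw [slash_zero_apply]
      have hpos : 0 < (((τ : ℂ) + j) / e).im := by
        rw [him]; exact div_pos τ.im_pos heR
      rw [← hinv e _ β _ δ heN hNc hW _ hpos]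
      congr 1
      unfold Wact
      congr 1
      · have : ((γ 0 1 : ℤ) : ℂ) = ((γ 0 0 * j + β : ℤ) : ℂ) := by rw [hj1]
        rw [this]; push_cast; field_simp; ring
      · have : ((γ 1 1 : ℤ) : ℂ) = ((γ 1 0 * j + e * δ : ℤ) : ℂ) := by rw [hj2]
        rw [this]; push_cast; field_simp; ring
    have hfun : ((fun τ : ℍ => F (τ : ℂ)) ∣[(0 : ℤ)] γ)
        = fun τ : ℍ => F (((τ : ℂ) + j) / e) := funext key
    rw [hfun]
    unfold IsZeroAtImInfty ZeroAtFilter
    refine hzero.comp ?_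
    rw [tendsto_comap_iff]
    have : (Complex.im ∘ fun τ : ℍ => ((τ : ℂ) + j) / e) = fun τ : ℍ => τ.im / (e : ℝ) :=
      funext him
    rw [this]
    exact tendsto_comap.atTop_div_const heR
  let f : ModularForm ((CongruenceSubgroup.Gamma0 N).map (Matrix.SpecialLinearGroup.mapGL ℝ)) 0 :=
    { toFun := fun τ : ℍ => F (τ : ℂ)
      slash_action_eq' := by
        rintro _ ⟨γ, hγ, rfl⟩
        change (fun τ : ℍ => F (τ : ℂ)) ∣[(0 : ℤ)] γ = _
        funext τ
        rw [slash_zero_apply]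
        have hdet : γ 0 0 * γ 1 1 - γ 0 1 * γ 1 0 = 1 := by
          have := γ.det_coe
          rw [Matrix.det_fin_two] at this
          exact this
        have hdvd : (N : ℤ) ∣ γ 1 0 := by
          have h := CongruenceSubgroup.Gamma0_mem.mp hγ
          exact (ZMod.intCast_zmod_eq_zero_iff_dvd _ _).mp h
        have := hinv 1 (γ 0 0) (γ 0 1) (γ 1 0) (γ 1 1) (one_dvd _) (by simpa using hdvd)
          (by simpa using hdet) (τ : ℂ) τ.im_pos
        rw [← this]
        unfold Wact
        simp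
      holo' := by
        rw [UpperHalfPlane.mdifferentiable_iff]
        refine hF.congr ?_
        intro z hz
        simp [ofComplex_apply_of_im_pos hz]
      bdd_at_cusps' := by
        intro c hc
        rw [Subgroup.IsArithmetic.isCusp_iff_isCusp_SL2Z] at hc
        rw [OnePoint.isBoundedAt_iff_forall_SL2Z hc]
        intro γ _
        exact (hSL γ).isBoundedAtImInfty }
  obtain ⟨c, hc⟩ := ModularForm.eq_const_of_weight_zero f
  have hfz : ∀ z : ℂ, 0 < z.im → F z = c := by
    intro z hz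
    have := congrFun hc ⟨z, hz⟩
    exact this
  have hc0 : c = 0 := by
    have h1 : Tendsto (fun τ : ℍ => F (τ : ℂ)) atImInfty (𝓝 0) :=
      hzero.comp tendsto_coe_atImInfty
    have h2 : Tendsto (fun τ : ℍ => F (τ : ℂ)) atImInfty (𝓝 c) := by
      have : (fun τ : ℍ => F (τ : ℂ)) = fun _ => c := funext fun τ => hfz _ τ.im_pos
      rw [this]; exact tendsto_const_nhds
    exact tendsto_nhds_unique h2 h1
  intro z hz
  rw [hfz z hz, hc0]

end Pool.Agent.H21.Pi
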