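/-
Helper for module MP of the project on the two series for 1/pi: uniqueness for the linear equation
of order three with a regular singular point.
-/
import Mathlib

set_option autoImplicit false

namespace Pool.Agent.H21.Pi

open Complex Filter Asymptotics
open scoped Real Topology

/-- `g` is the derivative of `f` with respect to the derivation `(q/v) d/dq`, on the set `U`. -/
def DD (v : ℂ → ℂ) (U : Set ℂ) (f g : ℂ → ℂ) : Prop :=
  ∀ q ∈ U, HasDerivAt f (v q * g q / q) q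

namespace DD

variable {v : ℂ → ℂ} {U : Set ℂ} {f g f' g' : ℂ → ℂ}

theorem const (c : ℂ) : DD v U (fun _ => c) (fun _ => 0) := by
  intro q _
  simpa using hasDerivAt_const q c

theorem add (h : DD v U f f') (k : DD v U g g') :
    DD v U (fun q => f q + g q) (fun q => f' q + g' q) := by
  intro q hq
  have := (h q hq).add (k q hq)
  refine this.congr_deriv ?_
  simp only
  ring

theorem sub (h : DD v U f f') (k : DD v U g g') :
    DD v U (fun q => f q - g q) (fun q => f' q - g' q) := by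
  intro q hq
  have := (h q hq).sub (k q hq)
  refine this.congr_deriv ?_
  simp only
  ring

theorem neg (h : DD v U f f') : DD v U (fun q => -f q) (fun q => -f' q) := by
  intro q hq
  have := (h q hq).neg
  refine this.congr_deriv ?_
  simp only
  ring

theorem mul (h : DD v U f f') (k : DD v U g g') :
    DD v U (fun q => f q * g q) (fun q => f' q * g q + f q * g' q) := by
  intro q hq
  have := (h q hq).mul (k q hq)
  refine this.congr_deriv ?_
  simp only
  ring

theorem const_mul (c : ℂ) (h : DD v U f f') :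
    DD v U (fun q => c * f q) (fun q => c * f' q) := by
  intro q hq
  have := (h q hq).const_mul c
  refine this.congr_deriv ?_
  simp only
  ring

theorem div (h : DD v U f f') (k : DD v U g g') (hg : ∀ q ∈ U, g q ≠ 0) :
    DD v U (fun q => f q / g q) (fun q => f' q / g q - f q * g' q / g q ^ 2) := by
  intro q hq
  have := (h q hq).div (k q hq) (hg q hq)
  refine this.congr_deriv ?_
  have := hg q hq
  simp only
  field_simp

theorem pow (h : DD v U f f') (n : ℕ) :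
    DD v U (fun q => f q ^ n) (fun q => n * f q ^ (n - 1) * f' q) := by
  intro q hq
  have := (h q hq).pow n
  refine this.congr_deriv ?_
  simp only
  ring

theorem congr (h : DD v U f f') (e : ∀ q ∈ U, f' q = g' q) : DD v U f g' := by
  intro q hq
  rw [← e q hq]
  exact h q hq

theorem congr_left (hU : IsOpen U) (h : DD v U f f') (e : ∀ q ∈ U, g q = f q) : DD v U g f' := by
  intro q hq
  refine (h q hq).congr_of_eventuallyEq ?_
  filter_upwards [hU.mem_nhds hq] with y hy using e y hy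

theorem mono {V : Set ℂ} (h : DD v U f f') (e : V ⊆ U) : DD v V f f' := fun q hq => h q (e hq)

/-- Uniqueness. -/
theorem unique (hU : IsOpen U) (h0 : (0 : ℂ) ∉ U) (hv : ∀ q ∈ U, v q ≠ 0) (h : DD v U f f')
    (k : DD v U g g') (e : ∀ q ∈ U, f q = g q) : ∀ q ∈ U, f' q = g' q := by
  intro q hq
  have h1 := h q hq
  have h2 := (congr_left hU k e) q hq
  have h3 := h1.unique h2
  have hq0 : q ≠ 0 := fun h => h0 (h ▸ hq)
  have hvq := hv q hq
  field_simp at h3
  exact h3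

end DD

/-- Behaviour of the leading coefficient under the derivation. -/
theorem lead_step {v : ℂ → ℂ} {U : Set ℂ} (hU : IsOpen U) (h0 : (0 : ℂ) ∉ U)
    (hvU : ∀ q ∈ U, v q ≠ 0)
    (hv : AnalyticAt ℂ v 0) (hv0 : v 0 ≠ 0) (m : ℕ) {f f' g : ℂ → ℂ}
    (hg : AnalyticAt ℂ g 0) (hfU : ∀ q ∈ U, AnalyticAt ℂ g q)
    (hvU' : ∀ q ∈ U, AnalyticAt ℂ v q)
    (hfg : ∀ q ∈ U, f q = q ^ m * g q) (h : DD v U f f') :
    ∃ g1 : ℂ → ℂ, AnalyticAt ℂ g1 0 ∧ (∀ q ∈ U, AnalyticAt ℂ g1 q) ∧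
      (∀ q ∈ U, f' q = q ^ m * g1 q) ∧ g1 0 = m * g 0 / v 0 := by
  refine ⟨fun q => (m * g q + q * deriv g q) / v q, ?_, ?_, ?_, by simp⟩
  · exact ((analyticAt_const.mul hg).add (analyticAt_id.mul hg.deriv)).div hv hv0
  · intro q hq
    exact ((analyticAt_const.mul (hfU q hq)).add (analyticAt_id.mul (hfU q hq).deriv)).div
      (hvU' q hq) (hvU q hq)
  · refine DD.unique hU h0 hvU h (g := fun q => q ^ m * g q) ?_ hfg
    intro q hq
    have hq0 : q ≠ 0 := fun h => h0 (h ▸ hq)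
    have hvq := hvU q hq
    have h1 := (hasDerivAt_pow m q).mul (hfU q hq).differentiableAt.hasDerivAt
    refine h1.congr_deriv ?_
    rcases m with _ | m
    · simp; field_simp
    · simp only [Nat.add_sub_cancel]
      field_simp
      ring

/-- Uniqueness of the holomorphic solution of `d^3 h = 4 R dh + 2 (dR) h` with `h(0)=0`. -/
theorem uniq {v : ℂ → ℂ} {U : Set ℂ} (hU : IsOpen U) (h0 : (0 : ℂ) ∉ U) (hUn : U ∈ 𝓝[≠] (0 : ℂ))
    (hvU : ∀ q ∈ U, v q ≠ 0) (hv : AnalyticAt ℂ v 0) (hv0 : v 0 ≠ 0)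
    (hvU' : ∀ q ∈ U, AnalyticAt ℂ v q)
    {h h1 h2 h3 R R1 : ℂ → ℂ} (hh : AnalyticAt ℂ h 0) 
    (d1 : DD v U h h1) (d2 : DD v U h1 h2) (d3 : DD v U h2 h3)
    (hR : Tendsto R (𝓝[≠] 0) (𝓝 0)) (hR1 : Tendsto R1 (𝓝[≠] 0) (𝓝 0))
    (hode : ∀ q ∈ U, h3 q = 4 * R q * h1 q + 2 * R1 q * h q) (hz : h 0 = 0) :
    ∀ᶠ q in 𝓝 (0 : ℂ), h q = 0 := by
  by_contra hcon
  obtain ⟨n, g, hg, hg0, hgn⟩ := (hh.exists_eventuallyEq_pow_smul_nonzero_iff).mpr hcon
  -- shrink the set
  have hgan : ∀ᶠ q in 𝓝 (0 : ℂ), AnalyticAt ℂ g q := hg.eventually_analyticAt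
  have hev : ∀ᶠ q in 𝓝 (0 : ℂ), AnalyticAt ℂ g q ∧ h q = q ^ n * g q := by
    filter_upwards [hgan, hgn] with q a b
    refine ⟨a, ?_⟩
    simpa using b
  obtain ⟨V, hV, hVo, h0V⟩ := eventually_nhds_iff.mp hev
  have hUV : IsOpen (U ∩ V) := hU.inter hVo
  have h0UV : (0 : ℂ) ∉ U ∩ V := fun h => h0 h.1
  have hn0 : n ≠ 0 := by
    rintro rfl
    have := (hV 0 h0V).2
    rw [hz] at this
    simp at this
    exact hg0 this.symm
  have e1 : DD v (U ∩ V) h h1 := d1.mono Set.inter_subset_left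
  have e2 : DD v (U ∩ V) h1 h2 := d2.mono Set.inter_subset_left
  have e3 : DD v (U ∩ V) h2 h3 := d3.mono Set.inter_subset_left
  obtain ⟨g1, a1, b1, c1, z1⟩ := lead_step hUV h0UV (fun q hq => hvU q hq.1) hv hv0 n hg
    (fun q hq => (hV q hq.2).1) (fun q hq => hvU' q hq.1) (fun q hq => (hV q hq.2).2) e1
  obtain ⟨g2, a2, b2, c2, z2⟩ := lead_step hUV h0UV (fun q hq => hvU q hq.1) hv hv0 n a1
    b1 (fun q hq => hvU' q hq.1) c1 e2
  obtain ⟨g3, a3, b3, c3, z3⟩ := lead_step hUV h0UV (fun q hq => hvU q hq.1) hv hv0 n a2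
    b2 (fun q hq => hvU' q hq.1) c2 e3
  have hUVn : U ∩ V ∈ 𝓝[≠] (0 : ℂ) :=
    inter_mem hUn (mem_nhdsWithin_of_mem_nhds (hVo.mem_nhds h0V))
  have hlim : Tendsto g3 (𝓝[≠] 0) (𝓝 (4 * 0 * g1 0 + 2 * 0 * g 0)) := by
    have ha : Tendsto (fun q => 4 * R q * g1 q + 2 * R1 q * g q) (𝓝[≠] 0)
        (𝓝 (4 * 0 * g1 0 + 2 * 0 * g 0)) := by
      refine ((hR.const_mul 4).mul ?_).add ((hR1.const_mul 2).mul ?_)
      · exact a1.continuousAt.tendsto.mono_left nhdsWithin_le_nhds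
      · exact hg.continuousAt.tendsto.mono_left nhdsWithin_le_nhds
    refine ha.congr' ?_
    filter_upwards [hUVn] with q hq
    have hq0 : q ≠ 0 := fun h => h0UV (h ▸ hq)
    have := hode q hq.1
    rw [c3 q hq, c1 q hq, (hV q hq.2).2] at this
    have hqn : q ^ n ≠ 0 := pow_ne_zero _ hq0
    apply mul_left_cancel₀ hqn
    rw [this]; ring
  have hlim' : Tendsto g3 (𝓝[≠] 0) (𝓝 (g3 0)) :=
    a3.continuousAt.tendsto.mono_left nhdsWithin_le_nhds
  have := tendsto_nhds_unique hlim hlim'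
  rw [z3, z2, z1] at this
  simp only [mul_zero, zero_mul, add_zero] at this
  have hnC : (n : ℂ) ≠ 0 := by exact_mod_cast hn0
  have h4 : (n : ℂ) * (n * (n * g 0 / v 0) / v 0) / v 0 ≠ 0 := by
    apply div_ne_zero (mul_ne_zero hnC (div_ne_zero (mul_ne_zero hnC
      (div_ne_zero (mul_ne_zero hnC hg0) hv0)) hv0)) hv0
  exact h4 this.symm

end Pool.Agent.H21.Pi
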