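/-
Helper for module MP of the project on the two series for 1/pi: the derivations.
-/
import Pool.Agent.H21.Pi.Uniq
import Pool.Agent.H21.Pi.Alg

set_option autoImplicit false

namespace Pool.Agent.H21.Pi

open Pool.Agent.H22.Pi
open Complex Filter Asymptotics
open scoped Real Topology

theorem hd_S6 (w : ℂ) : HasDerivAt (fun w : ℂ => S6 w)
    (-8 + 16 * w - 54 * w ^ 2 + 32 * w ^ 3 - 40 * w ^ 4 + 6 * w ^ 5) w := by
  have h := (1 - 8 * Polynomial.X + 8 * Polynomial.X ^ 2 - 18 * Polynomial.X ^ 3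
    + 8 * Polynomial.X ^ 4 - 8 * Polynomial.X ^ 5 + Polynomial.X ^ 6 : Polynomial ℂ).hasDerivAt w
  simp at h
  refine (h.congr_deriv ?_)
  ring

theorem hd_T1 (w : ℂ) : HasDerivAt T1
    (-8 + 32 * w - 162 * w ^ 2 + 128 * w ^ 3 - 200 * w ^ 4 + 36 * w ^ 5) w := by
  have h := (-8 * Polynomial.X + 16 * Polynomial.X ^ 2 - 54 * Polynomial.X ^ 3
    + 32 * Polynomial.X ^ 4 - 40 * Polynomial.X ^ 5 + 6 * Polynomial.X ^ 6
    : Polynomial ℂ).hasDerivAt w
  simp at h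
  have h2 := h.congr_deriv (g' := -8 + 32 * w - 162 * w ^ 2 + 128 * w ^ 3 - 200 * w ^ 4
    + 36 * w ^ 5) (by ring)
  refine h2.congr_of_eventuallyEq ?_
  filter_upwards with w
  unfold T1
  ring

theorem hd_T2 (w : ℂ) : HasDerivAt T2
    (-8 + 64 * w - 486 * w ^ 2 + 512 * w ^ 3 - 1000 * w ^ 4 + 216 * w ^ 5) w := by
  have h := (-8 * Polynomial.X + 32 * Polynomial.X ^ 2 - 162 * Polynomial.X ^ 3
    + 128 * Polynomial.X ^ 4 - 200 * Polynomial.X ^ 5 + 36 * Polynomial.X ^ 6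
    : Polynomial ℂ).hasDerivAt w
  simp at h
  have h2 := h.congr_deriv (g' := -8 + 64 * w - 486 * w ^ 2 + 512 * w ^ 3 - 1000 * w ^ 4
    + 216 * w ^ 5) (by ring)
  refine h2.congr_of_eventuallyEq ?_
  filter_upwards with w
  unfold T2
  ring

theorem hd_Nw (w : ℂ) : HasDerivAt (fun w : ℂ => Nw w)
    (-4 + 24 * w - 336 * w ^ 2 + 2000 * w ^ 3 - 5800 * w ^ 4 + 10056 * w ^ 5 - 14112 * w ^ 6
    + 13408 * w ^ 7 - 10440 * w ^ 8 + 5000 * w ^ 9 - 1232 * w ^ 10 + 144 * w ^ 11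
    - 52 * w ^ 12) w := by
  have h := (-4 * Polynomial.X + 12 * Polynomial.X ^ 2 - 112 * Polynomial.X ^ 3
    + 500 * Polynomial.X ^ 4 - 1160 * Polynomial.X ^ 5 + 1676 * Polynomial.X ^ 6
    - 2016 * Polynomial.X ^ 7 + 1676 * Polynomial.X ^ 8 - 1160 * Polynomial.X ^ 9
    + 500 * Polynomial.X ^ 10 - 112 * Polynomial.X ^ 11 + 12 * Polynomial.X ^ 12
    - 4 * Polynomial.X ^ 13 : Polynomial ℂ).hasDerivAt w
  simp at h
  have h2 := h.congr_deriv (g' := -4 + 24 * w - 336 * w ^ 2 + 2000 * w ^ 3 - 5800 * w ^ 4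
    + 10056 * w ^ 5 - 14112 * w ^ 6 + 13408 * w ^ 7 - 10440 * w ^ 8 + 5000 * w ^ 9
    - 1232 * w ^ 10 + 144 * w ^ 11 - 52 * w ^ 12) (by ring)
  refine h2.congr_of_eventuallyEq ?_
  filter_upwards with w
  unfold Nw
  ring

namespace DD

variable {v w : ℂ → ℂ} {U : Set ℂ}

theorem comp (hW : DD v U w w) {r r' : ℂ → ℂ} (hr : ∀ q ∈ U, HasDerivAt r (r' (w q)) (w q)) :
    DD v U (fun q => r (w q)) (fun q => w q * r' (w q)) := by
  intro q hq
  have h := (hr q hq).comp q (hW q hq)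
  refine h.congr_deriv ?_
  simp only
  ring

theorem dS6 (hW : DD v U w w) : DD v U (fun q => S6 (w q)) (fun q => T1 (w q)) := by
  refine (DD.comp hW (r := fun w => S6 w) (r' := fun w => -8 + 16 * w - 54 * w ^ 2 + 32 * w ^ 3
    - 40 * w ^ 4 + 6 * w ^ 5) (fun q _ => hd_S6 (w q))).congr ?_
  intro q _
  unfold T1
  ring

theorem dT1 (hW : DD v U w w) : DD v U (fun q => T1 (w q)) (fun q => T2 (w q)) := by
  refine (DD.comp hW (r := T1) (r' := fun w => -8 + 32 * w - 162 * w ^ 2 + 128 * w ^ 3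
    - 200 * w ^ 4 + 36 * w ^ 5) (fun q _ => hd_T1 (w q))).congr ?_
  intro q _
  unfold T2
  ring

theorem dT2 (hW : DD v U w w) : DD v U (fun q => T2 (w q)) (fun q => T3 (w q)) := by
  refine (DD.comp hW (r := T2) (r' := fun w => -8 + 64 * w - 486 * w ^ 2 + 512 * w ^ 3
    - 1000 * w ^ 4 + 216 * w ^ 5) (fun q _ => hd_T2 (w q))).congr ?_
  intro q _
  unfold T3
  ring

theorem dNw (hW : DD v U w w) : DD v U (fun q => Nw (w q)) (fun q => N1 (w q)) := by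
  refine (DD.comp hW (r := fun w => Nw w) (r' := fun w => -4 + 24 * w - 336 * w ^ 2
    + 2000 * w ^ 3 - 5800 * w ^ 4 + 10056 * w ^ 5 - 14112 * w ^ 6 + 13408 * w ^ 7
    - 10440 * w ^ 8 + 5000 * w ^ 9 - 1232 * w ^ 10 + 144 * w ^ 11
    - 52 * w ^ 12) (fun q _ => hd_Nw (w q))).congr ?_
  intro q _
  unfold N1
  ring

theorem dA (hW : DD v U w w) : DD v U (fun q => 1 - w q) (fun q => -w q) := by
  refine ((DD.const 1).sub hW).congr ?_
  intro q _
  simp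

theorem dB (hW : DD v U w w) : DD v U (fun q => 1 + w q ^ 2) (fun q => 2 * w q ^ 2) := by
  refine ((DD.const 1).add (hW.pow 2)).congr ?_
  intro q _
  simp
  ring

theorem dC (hW : DD v U w w) (hb : ∀ q ∈ U, 1 + w q ^ 2 ≠ 0) :
    DD v U (fun q => cf (w q)) (fun q => cf1 (w q)) := by
  refine ((((DD.const 1).sub (hW.pow 2)).div hW.dB hb)).congr ?_
  intro q hq
  have := hb q hq
  simp only [cf1]
  field_simp
  push_cast
  ring

theorem dC1 (hW : DD v U w w) (hb : ∀ q ∈ U, 1 + w q ^ 2 ≠ 0) :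
    DD v U (fun q => cf1 (w q)) (fun q => cf2 (w q)) := by
  refine ((((hW.pow 2).const_mul (-4)).div (hW.dB.pow 2)
    (fun q hq => pow_ne_zero _ (hb q hq)))).congr ?_
  intro q hq
  have := hb q hq
  simp only [cf2]
  field_simp
  push_cast
  ring

theorem dX (hW : DD v U w w) (hb : ∀ q ∈ U, 1 + w q ^ 2 ≠ 0) :
    DD v U (fun q => w q / (1 + w q ^ 2)) (fun q => cf (w q) * (w q / (1 + w q ^ 2))) := by
  refine ((hW.div hW.dB hb)).congr ?_
  intro q hq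
  have := hb q hq
  simp only [cf]
  field_simp
  ring

theorem dbe (hW : DD v U w w) (hs : ∀ q ∈ U, S6 (w q) ≠ 0) (ha : ∀ q ∈ U, 1 - w q ≠ 0)
    (hb : ∀ q ∈ U, 1 + w q ^ 2 ≠ 0) :
    DD v U (fun q => be (w q)) (fun q => be1 (w q)) := by
  have h1 := hW.dT1.div (hW.dS6.const_mul 2) (fun q hq => mul_ne_zero two_ne_zero (hs q hq))
  have h2 := hW.div hW.dA ha
  have h3 := ((hW.pow 2).const_mul 2).div hW.dB hb
  refine ((h1.add h2).sub h3).congr ?_
  intro q hq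
  have h4 := hs q hq
  have h5 := ha q hq
  have h6 := hb q hq
  simp only [be1]
  field_simp
  push_cast
  ring

theorem dbe1 (hW : DD v U w w) (hs : ∀ q ∈ U, S6 (w q) ≠ 0) (ha : ∀ q ∈ U, 1 - w q ≠ 0)
    (hb : ∀ q ∈ U, 1 + w q ^ 2 ≠ 0) :
    DD v U (fun q => be1 (w q)) (fun q => be2 (w q)) := by
  have h1 := hW.dT2.div (hW.dS6.const_mul 2) (fun q hq => mul_ne_zero two_ne_zero (hs q hq))
  have h1' := (hW.dT1.pow 2).div ((hW.dS6.pow 2).const_mul 2)
    (fun q hq => mul_ne_zero two_ne_zero (pow_ne_zero _ (hs q hq)))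
  have h2 := hW.div (hW.dA.pow 2) (fun q hq => pow_ne_zero _ (ha q hq))
  have h3 := ((hW.pow 2).const_mul 4).div (hW.dB.pow 2) (fun q hq => pow_ne_zero _ (hb q hq))
  refine (((h1.sub h1').add h2).sub h3).congr ?_
  intro q hq
  have h4 := hs q hq
  have h5 := ha q hq
  have h6 := hb q hq
  simp only [be2]
  field_simp
  push_cast
  ring

theorem dRf (hW : DD v U w w) (hs : ∀ q ∈ U, S6 (w q) ≠ 0) (ha : ∀ q ∈ U, 1 - w q ≠ 0) :
    DD v U (fun q => Rf (w q)) (fun q => Rf1 (w q)) := by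
  have h1 := hW.dNw.div (((hW.dS6.pow 2).const_mul 4).mul (hW.dA.pow 2))
    (fun q hq => mul_ne_zero (mul_ne_zero (by norm_num) (pow_ne_zero _ (hs q hq)))
      (pow_ne_zero _ (ha q hq)))
  refine h1.congr ?_
  intro q hq
  have h4 := hs q hq
  have h5 := ha q hq
  simp only [Rf1]
  field_simp
  push_cast
  ring

end DD

end Pool.Agent.H21.Pi
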