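/-
Helper for module MP of the project on the two series for 1/pi: the identity near the cusp.
-/
import Pool.Agent.H21.Pi.Ode

set_option autoImplicit false

namespace Pool.Agent.H21.Pi

open Pool.Agent.H22.Pi
open Complex Filter Asymptotics
open scoped Real Topology

/-- `w` as a function of `q`. -/
noncomputable def wq (q : ℂ) : ℂ := q * aq q

/-- `V` as a function of `q`. -/
noncomputable def vq (q : ℂ) : ℂ := 1 + q * deriv aq q / aq q

/-- The derivative of an analytic function for the derivation `(q/v) d/dq`. -/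
noncomputable def dd (v f : ℂ → ℂ) (q : ℂ) : ℂ := q * deriv f q / v q

theorem dd_DD {v f : ℂ → ℂ} {U : Set ℂ} (h0 : (0 : ℂ) ∉ U) (hv : ∀ q ∈ U, v q ≠ 0)
    (hf : ∀ q ∈ U, AnalyticAt ℂ f q) : DD v U f (dd v f) := by
  intro q hq
  have hq0 : q ≠ 0 := fun h => h0 (h ▸ hq)
  have hvq := hv q hq
  refine (hf q hq).differentiableAt.hasDerivAt.congr_deriv ?_
  unfold dd
  field_simp

theorem dd_analytic {v f : ℂ → ℂ} {U : Set ℂ} (hv : ∀ q ∈ U, v q ≠ 0)
    (hva : ∀ q ∈ U, AnalyticAt ℂ v q)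
    (hf : ∀ q ∈ U, AnalyticAt ℂ f q) : ∀ q ∈ U, AnalyticAt ℂ (dd v f) q := by
  intro q hq
  exact (analyticAt_id.mul (hf q hq).deriv).div (hva q hq) (hv q hq)

section

variable (hQ : QsStmt)
include hQ

theorem aq_an {q : ℂ} (hq : ‖q‖ < 1) : AnalyticAt ℂ aq q := by
  obtain ⟨_, _, _, _, _, h, _⟩ := hQ
  exact h.analyticAt (Metric.isOpen_ball.mem_nhds (by simpa using hq))

theorem aq_ne {q : ℂ} (hq : ‖q‖ < 1) : aq q ≠ 0 := by
  obtain ⟨_, _, _, _, _, _, h, _⟩ := hQ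
  exact h q hq

theorem aq_zero : aq 0 = 1 := by
  obtain ⟨_, _, _, _, _, _, _, h, _⟩ := hQ
  exact h

theorem wq_an {q : ℂ} (hq : ‖q‖ < 1) : AnalyticAt ℂ wq q :=
  analyticAt_id.mul (aq_an hQ hq)

theorem vq_an {q : ℂ} (hq : ‖q‖ < 1) : AnalyticAt ℂ vq q :=
  analyticAt_const.add ((analyticAt_id.mul (aq_an hQ hq).deriv).div (aq_an hQ hq) (aq_ne hQ hq))

theorem wq_hd {q : ℂ} (hq : ‖q‖ < 1) (hq0 : q ≠ 0) : HasDerivAt wq (vq q * wq q / q) q := by
  have h := (hasDerivAt_id q).mul (aq_an hQ hq).differentiableAt.hasDerivAt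
  refine h.congr_deriv ?_
  have := aq_ne hQ hq
  unfold vq wq
  simp only [id]
  field_simp

end

/-- The nome. -/
noncomputable def qz (z : ℂ) : ℂ := cexp (2 * π * I * z)

theorem norm_qz (z : ℂ) : ‖qz z‖ = Real.exp (-(2 * π * z.im)) := by
  unfold qz
  rw [Complex.norm_exp]
  congr 1
  simp

theorem norm_qz_lt {z : ℂ} (hz : 0 < z.im) : ‖qz z‖ < 1 := by
  rw [norm_qz, Real.exp_lt_one_iff]
  have := Real.pi_pos
  nlinarith [mul_pos this hz]

theorem qz_ne (z : ℂ) : qz z ≠ 0 := Complex.exp_ne_zero _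

theorem hd_qz (z : ℂ) : HasDerivAt qz (2 * π * I * qz z) z := by
  have h := ((hasDerivAt_id z).const_mul (2 * (π : ℂ) * I)).cexp
  refine h.congr_deriv ?_
  simp [qz]
  ring

theorem two_pi_I_ne : (2 * (π : ℂ) * I) ≠ 0 := by
  simp [Real.pi_ne_zero, I_ne_zero]

/-- `D` of a function of `q`. -/
theorem Dz_comp {f : ℂ → ℂ} {z : ℂ} (hf : DifferentiableAt ℂ f (qz z)) :
    Dz (fun z => f (qz z)) z = qz z * deriv f (qz z) := by
  unfold Dz
  have h := (hf.hasDerivAt.comp z (hd_qz z)).deriv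
  have h' : deriv (fun z => f (qz z)) z = deriv f (qz z) * (2 * π * I * qz z) := h
  rw [h']
  have := two_pi_I_ne
  field_simp

theorem im_open : IsOpen {z : ℂ | 0 < z.im} := isOpen_lt continuous_const Complex.continuous_im

theorem Dz_congr {f g : ℂ → ℂ} (h : ∀ z : ℂ, 0 < z.im → f z = g z) {z : ℂ} (hz : 0 < z.im) :
    Dz f z = Dz g z := by
  unfold Dz
  congr 1
  apply Filter.EventuallyEq.deriv_eq
  filter_upwards [im_open.mem_nhds hz] with y hy using h y hy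

theorem exists_qz {q : ℂ} (hq : ‖q‖ < 1) (hq0 : q ≠ 0) : ∃ z : ℂ, 0 < z.im ∧ qz z = q := by
  refine ⟨Complex.log q / (2 * π * I), ?_, ?_⟩
  · have h : Complex.log q / (2 * π * I) = (-I / (2 * π)) * Complex.log q := by
      have h1 := two_pi_I_ne
      have h2 : (π : ℂ) ≠ 0 := by exact_mod_cast Real.pi_ne_zero
      field_simp
      rw [I_sq]; ring
    rw [h]
    have h3 : ((-I / (2 * π)) * Complex.log q).im = -(Complex.log q).re / (2 * π) := by
      have : (-I / (2 * (π : ℂ))) = ((1 / (2 * π) : ℝ) : ℂ) * (-I) := by push_cast; ring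
      rw [this, mul_assoc, Complex.im_ofReal_mul]
      simp
      ring
    rw [h3, Complex.log_re]
    have h4 : Real.log ‖q‖ < 0 := Real.log_neg (norm_pos_iff.mpr hq0) hq
    have h5 := Real.pi_pos
    apply div_pos (by linarith) (by linarith)
  · unfold qz
    rw [mul_div_cancel₀ _ two_pi_I_ne]
    exact Complex.exp_log hq0

section

variable (hQ : QsStmt)
include hQ

theorem wf_eq {z : ℂ} (hz : 0 < z.im) : wf z = wq (qz z) := hQ.1 z hz

theorem Vf_eq {z : ℂ} (hz : 0 < z.im) : Vf z = vq (qz z) := by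
  unfold Vf
  have hq := norm_qz_lt hz
  rw [Dz_congr (fun z hz => wf_eq hQ hz) hz, Dz_comp (wq_an hQ hq).differentiableAt, wf_eq hQ hz,
    (wq_hd hQ hq (qz_ne z)).deriv]
  have h1 := qz_ne z
  have h2 : wq (qz z) ≠ 0 := mul_ne_zero h1 (aq_ne hQ hq)
  field_simp

theorem DVf_eq {z : ℂ} (hz : 0 < z.im) : Dz Vf z = qz z * deriv vq (qz z) := by
  rw [Dz_congr (fun z hz => Vf_eq hQ hz) hz, Dz_comp (vq_an hQ (norm_qz_lt hz)).differentiableAt]

theorem DDVf_eq {z : ℂ} (hz : 0 < z.im) :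
    Dz (Dz Vf) z = qz z * deriv (fun q => q * deriv vq q) (qz z) := by
  rw [Dz_congr (fun z hz => DVf_eq hQ hz) hz]
  exact Dz_comp (f := fun q => q * deriv vq q)
    ((analyticAt_id.mul (vq_an hQ (norm_qz_lt hz)).deriv).differentiableAt)

theorem schw_q (hS : SchwStmt) {q : ℂ} (hq : ‖q‖ < 1) (hq0 : q ≠ 0) :
    (2 * vq q * (q * deriv (fun q => q * deriv vq q) q) - 3 * (q * deriv vq q) ^ 2)
      * (S6 (wq q)) ^ 2 * (1 - wq q) ^ 2 = (vq q) ^ 4 * Nw (wq q) := by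
  obtain ⟨z, hz, rfl⟩ := exists_qz hq hq0
  have h := hS z hz
  rw [DDVf_eq hQ hz, DVf_eq hQ hz, Vf_eq hQ hz, wf_eq hQ hz] at h
  exact h

/-- The equation of order three for `v`. -/
theorem ode_v (hS : SchwStmt) {U : Set ℂ} (hU : IsOpen U) (h0 : (0 : ℂ) ∉ U)
    (hU1 : ∀ q ∈ U, ‖q‖ < 1) (hv : ∀ q ∈ U, vq q ≠ 0)
    (hs : ∀ q ∈ U, S6 (wq q) ≠ 0) (ha : ∀ q ∈ U, 1 - wq q ≠ 0) :
    ∃ v1 v2 v3 : ℂ → ℂ, DD vq U vq v1 ∧ DD vq U v1 v2 ∧ DD vq U v2 v3 ∧
      ∀ q ∈ U, v3 q = 4 * Rf (wq q) * v1 q + 2 * Rf1 (wq q) * vq q := by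
  have hva : ∀ q ∈ U, AnalyticAt ℂ vq q := fun q hq => vq_an hQ (hU1 q hq)
  have a1 := dd_analytic hv hva hva
  have a2 := dd_analytic hv hva a1
  have d1 : DD vq U vq (dd vq vq) := dd_DD h0 hv hva
  have d2 : DD vq U (dd vq vq) (dd vq (dd vq vq)) := dd_DD h0 hv a1
  have d3 : DD vq U (dd vq (dd vq vq)) (dd vq (dd vq (dd vq vq))) := dd_DD h0 hv a2
  have hW : DD vq U wq wq := fun q hq =>
    wq_hd hQ (hU1 q hq) (fun h => h0 (h ▸ hq))
  refine ⟨_, _, _, d1, d2, d3, ?_⟩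
  -- the first integral
  have key : ∀ q ∈ U, 2 * (vq q * dd vq (dd vq vq) q) - dd vq vq q ^ 2
      = 4 * (Rf (wq q) * vq q ^ 2) := by
    intro q hq
    have hq0 : q ≠ 0 := fun h => h0 (h ▸ hq)
    have h := schw_q hQ hS (hU1 q hq) hq0
    have e1 : q * deriv vq q = vq q * dd vq vq q := by
      unfold dd
      have := hv q hq
      field_simp
    have e2 : q * deriv (fun q => q * deriv vq q) q
        = vq q * dd vq vq q ^ 2 + vq q ^ 2 * dd vq (dd vq vq) q := by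
      have e3 : (fun q => q * deriv vq q) =ᶠ[𝓝 q] (fun q => vq q * dd vq vq q) := by
        filter_upwards [hU.mem_nhds hq] with y hy
        unfold dd
        have := hv y hy
        field_simp
      rw [e3.deriv_eq]
      have e4 := (DD.mul d1 d2 q hq).deriv
      rw [e4]
      simp only
      field_simp
    rw [e1, e2] at h
    have h1 := hs q hq
    have h2 := ha q hq
    have h3 := hv q hq
    unfold Rf
    have h4 : vq q ^ 2 * ((2 * (vq q * dd vq (dd vq vq) q) - dd vq vq q ^ 2)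
      * (S6 (wq q)) ^ 2 * (1 - wq q) ^ 2) = vq q ^ 2 * (vq q ^ 2 * Nw (wq q)) := by
      linear_combination h
    have h5 := mul_left_cancel₀ (pow_ne_zero 2 h3) h4
    field_simp
    linear_combination h5
  -- differentiate
  have D1 := ((DD.mul d1 d3).const_mul 2).sub (d2.pow 2)
  have D2 := ((DD.mul (DD.dRf hW hs ha) (d1.pow 2)).const_mul 4)
  have D3 := DD.unique hU h0 hv D1 D2 key
  intro q hq
  have h := D3 q hq
  have h3 := hv q hq
  have h4 : vq q * dd vq (dd vq (dd vq vq)) q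
      = vq q * (4 * Rf (wq q) * dd vq vq q + 2 * Rf1 (wq q) * vq q) := by
    simp at h
    linear_combination h / 2
  exact mul_left_cancel₀ h3 h4

end

/-- `B^2`. -/
noncomputable def Ef (w : ℂ) : ℂ := S6 w / ((1 - w) ^ 2 * (1 + w ^ 2) ^ 2)

/-- `B`. -/
noncomputable def Bf (w : ℂ) : ℂ := (Ef w) ^ (1 / 2 : ℂ)

theorem Bf_sq (w : ℂ) : Bf w ^ 2 = Ef w := by
  unfold Bf
  rw [← Complex.cpow_nat_mul]
  norm_num

theorem dEf {v w : ℂ → ℂ} {U : Set ℂ} (hW : DD v U w w) (hs : ∀ q ∈ U, S6 (w q) ≠ 0)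
    (ha : ∀ q ∈ U, 1 - w q ≠ 0) (hb : ∀ q ∈ U, 1 + w q ^ 2 ≠ 0) :
    DD v U (fun q => Ef (w q)) (fun q => 2 * be (w q) * Ef (w q)) := by
  refine (hW.dS6.div ((hW.dA.pow 2).mul (hW.dB.pow 2)) (fun q hq =>
    mul_ne_zero (pow_ne_zero _ (ha q hq)) (pow_ne_zero _ (hb q hq)))).congr ?_
  intro q hq
  have h4 := hs q hq
  have h5 := ha q hq
  have h6 := hb q hq
  simp only [be, Ef]
  field_simp
  push_cast
  ring

theorem dBf {v w : ℂ → ℂ} {U : Set ℂ} (hW : DD v U w w) (hs : ∀ q ∈ U, S6 (w q) ≠ 0)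
    (ha : ∀ q ∈ U, 1 - w q ≠ 0) (hb : ∀ q ∈ U, 1 + w q ^ 2 ≠ 0)
    (hE : ∀ q ∈ U, Ef (w q) ∈ Complex.slitPlane) :
    DD v U (fun q => Bf (w q)) (fun q => be (w q) * Bf (w q)) := by
  intro q hq
  have h := (dEf hW hs ha hb q hq).cpow_const (c := (1 / 2 : ℂ)) (hE q hq)
  refine h.congr_deriv ?_
  have hne : Ef (w q) ≠ 0 := Complex.slitPlane_ne_zero (hE q hq)
  rw [Complex.cpow_sub _ _ hne, Complex.cpow_one]
  unfold Bf
  field_simp

end Pool.Agent.H21.Pi
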