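/-
Module MP of the project on the two series for 1/pi: the modular parametrisation of `G` along the
imaginary axis.
-/
import Pool.Agent.H21.Pi.Loc

set_option autoImplicit false

namespace Pool.Agent.H21.Pi

open Pool.Agent.H22.Pi
open Complex Filter Asymptotics
open scoped Real Topology

/-- `x` as a function of `w`. -/
noncomputable def xw (w : ℂ) : ℂ := w / (1 + w ^ 2)

theorem dG (hA : An2Stmt) {v w : ℂ → ℂ} {U : Set ℂ} (hW : DD v U w w)
    (hb : ∀ q ∈ U, 1 + w q ^ 2 ≠ 0) (hx : ∀ q ∈ U, ‖xw (w q)‖ < 1 / 8) (j : ℕ) :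
    DD v U (fun q => Gz j (xw (w q))) (fun q => cf (w q) * Gz (j + 1) (xw (w q))) := by
  intro q hq
  obtain ⟨_, h2, h3, _, _⟩ := hA
  have h4 : DifferentiableAt ℂ (Gz j) (xw (w q)) :=
    (h2 j).differentiableAt (Metric.isOpen_ball.mem_nhds (by simpa using hx q hq))
  have h5 := h4.hasDerivAt.comp q (hW.dX hb q hq)
  refine h5.congr_deriv ?_
  have h6 := h3 j _ (hx q hq)
  simp only
  rw [← h6]
  unfold xw
  ring

/-- The equation of order three for `Y = G B`. -/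
theorem ode_Y (hA : An2Stmt) {v w : ℂ → ℂ} {U : Set ℂ} (hW : DD v U w w)
    (hs : ∀ q ∈ U, S6 (w q) ≠ 0)
    (ha : ∀ q ∈ U, 1 - w q ≠ 0) (hb : ∀ q ∈ U, 1 + w q ^ 2 ≠ 0)
    (hx : ∀ q ∈ U, ‖xw (w q)‖ < 1 / 8) (hE : ∀ q ∈ U, Ef (w q) ∈ Complex.slitPlane) :
    ∃ y1 y2 y3 : ℂ → ℂ, DD v U (fun q => Gz 0 (xw (w q)) * Bf (w q)) y1 ∧ DD v U y1 y2 ∧
      DD v U y2 y3 ∧ ∀ q ∈ U, y3 q = 4 * Rf (w q) * y1 q
        + 2 * Rf1 (w q) * (Gz 0 (xw (w q)) * Bf (w q)) := by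
  have B := dBf hW hs ha hb hE
  have G0 := dG hA hW hb hx 0
  have G1 := dG hA hW hb hx 1
  have G2 := dG hA hW hb hx 2
  have b0 := hW.dbe hs ha hb
  have b1 := hW.dbe1 hs ha hb
  have c0 := hW.dC hb
  have c1 := hW.dC1 hb
  simp only [Nat.reduceAdd] at G0 G1 G2
  refine ⟨fun q => Bf (w q) * (be (w q) * Gz 0 (xw (w q)) + cf (w q) * Gz 1 (xw (w q))),
    fun q => Bf (w q) * ((be1 (w q) + be (w q) ^ 2) * Gz 0 (xw (w q))
      + (cf1 (w q) + 2 * (be (w q) * cf (w q))) * Gz 1 (xw (w q))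
      + cf (w q) ^ 2 * Gz 2 (xw (w q))),
    fun q => Bf (w q) * ((be2 (w q) + 3 * be (w q) * be1 (w q) + be (w q) ^ 3)
        * Gz 0 (xw (w q))
      + (cf2 (w q) + 3 * be1 (w q) * cf (w q) + 3 * be (w q) * cf1 (w q)
        + 3 * be (w q) ^ 2 * cf (w q)) * Gz 1 (xw (w q))
      + (3 * cf (w q) * cf1 (w q) + 3 * be (w q) * cf (w q) ^ 2) * Gz 2 (xw (w q))
      + cf (w q) ^ 3 * Gz 3 (xw (w q))), ?_, ?_, ?_, ?_⟩
  · refine (G0.mul B).congr ?_
    intro q _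
    ring
  · refine (B.mul ((b0.mul G0).add (c0.mul G1))).congr ?_
    intro q _
    ring
  · refine (B.mul (((((b1.add (b0.pow 2)).mul G0).add
      ((c1.add ((b0.mul c0).const_mul 2)).mul G1)).add ((c0.pow 2).mul G2)))).congr ?_
    intro q _
    simp only [Nat.cast_ofNat, Nat.reduceSub, pow_one]
    ring
  · intro q hq
    have h1 := hs q hq
    have h2 := ha q hq
    have h3 := hb q hq
    have e0 := coef0 (w q) h1 h2 h3
    have e1 := coef1 (w q) h1 h2 h3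
    have e2 := coef2 (w q) h1 h2 h3
    have e3 := coef3 (w q) h1 h2 h3
    have e := hA.2.2.2.1 _ (hx q hq)
    unfold xw at *
    set K := (1 + w q) * (1 + w q ^ 2) ^ 4 / (S6 (w q) * (1 - w q) ^ 3) with hK
    linear_combination Bf (w q) * (Gz 0 (w q / (1 + w q ^ 2)) * e0
      + Gz 1 (w q / (1 + w q ^ 2)) * e1 + Gz 2 (w q / (1 + w q ^ 2)) * e2
      + Gz 3 (w q / (1 + w q ^ 2)) * e3 + K * e)

/-- Near the cusp. -/
theorem local_id (hS : SchwStmt) (hA : An2Stmt) (hQ : QsStmt) :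
    ∀ᶠ q in 𝓝 (0 : ℂ), (Gz 0 (xw (wq q))) ^ 2 * S6 (wq q)
      = vq q ^ 2 * (1 - wq q) ^ 2 * (1 + wq q ^ 2) ^ 2 := by
  have hw0 : wq 0 = 0 := by simp [wq]
  have hv0 : vq 0 = 1 := by simp [vq]
  have hwc : ContinuousAt wq 0 := (wq_an hQ (by simp)).continuousAt
  have hvc : ContinuousAt vq 0 := (vq_an hQ (by simp)).continuousAt
  have hS60 : S6 (wq 0) = 1 := by rw [hw0]; simp [S6]
  have hEw : ContinuousAt Ef 0 := by
    unfold Ef
    refine ContinuousAt.div (hd_S6 0).continuousAt ?_ (by simp)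
    fun_prop
  have hE0 : Ef (wq 0) = 1 := by rw [hw0]; simp [Ef, S6]
  have hEc : ContinuousAt (fun q => Ef (wq q)) 0 :=
    ContinuousAt.comp (f := wq) (g := Ef) (by rw [hw0]; exact hEw) hwc
  have hSc : ContinuousAt (fun q => S6 (wq q)) 0 :=
    ContinuousAt.comp (f := wq) (g := fun w => S6 w) (hd_S6 _).continuousAt hwc
  have hxc : ContinuousAt (fun q => xw (wq q)) 0 := by
    unfold xw
    refine hwc.div (continuousAt_const.add (hwc.pow 2)) ?_
    rw [hw0]; simp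
  have ev1 : ∀ᶠ q in 𝓝 (0 : ℂ), ‖q‖ < 1 := by
    have : Tendsto (fun q : ℂ => ‖q‖) (𝓝 0) (𝓝 ‖(0 : ℂ)‖) := continuous_norm.tendsto 0
    rw [norm_zero] at this
    exact this.eventually (gt_mem_nhds one_pos)
  have ev2 : ∀ᶠ q in 𝓝 (0 : ℂ), vq q ≠ 0 := hvc.eventually_ne (by rw [hv0]; exact one_ne_zero)
  have ev3 : ∀ᶠ q in 𝓝 (0 : ℂ), S6 (wq q) ≠ 0 :=
    hSc.eventually_ne (by simp only [hS60]; exact one_ne_zero)
  have ev4 : ∀ᶠ q in 𝓝 (0 : ℂ), 1 - wq q ≠ 0 :=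
    (continuousAt_const.sub hwc).eventually_ne (by simp [hw0])
  have ev5 : ∀ᶠ q in 𝓝 (0 : ℂ), 1 + wq q ^ 2 ≠ 0 :=
    (continuousAt_const.add (hwc.pow 2)).eventually_ne (by simp [hw0])
  have ev6 : ∀ᶠ q in 𝓝 (0 : ℂ), ‖xw (wq q)‖ < 1 / 8 := by
    have h := hxc.norm.tendsto
    refine h.eventually (gt_mem_nhds ?_)
    rw [hw0]; simp [xw]
  have ev7 : ∀ᶠ q in 𝓝 (0 : ℂ), Ef (wq q) ∈ Complex.slitPlane :=
    hEc.eventually (Complex.isOpen_slitPlane.mem_nhds (by simp only [hE0]; simp))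
  have hev := ev1.and (ev2.and (ev3.and (ev4.and (ev5.and (ev6.and ev7)))))
  obtain ⟨W, hWp, hWo, h0W⟩ := eventually_nhds_iff.mp hev
  set U : Set ℂ := W \ {0} with hUdef
  have hU : IsOpen U := hWo.sdiff isClosed_singleton
  have h0 : (0 : ℂ) ∉ U := by simp [hUdef]
  have hUn : U ∈ 𝓝[≠] (0 : ℂ) := by
    rw [hUdef, Set.sdiff_eq]
    exact inter_mem (mem_nhdsWithin_of_mem_nhds (hWo.mem_nhds h0W)) self_mem_nhdsWithin
  have u1 : ∀ q ∈ U, ‖q‖ < 1 := fun q hq => (hWp q hq.1).1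
  have u2 : ∀ q ∈ U, vq q ≠ 0 := fun q hq => (hWp q hq.1).2.1
  have u3 : ∀ q ∈ U, S6 (wq q) ≠ 0 := fun q hq => (hWp q hq.1).2.2.1
  have u4 : ∀ q ∈ U, 1 - wq q ≠ 0 := fun q hq => (hWp q hq.1).2.2.2.1
  have u5 : ∀ q ∈ U, 1 + wq q ^ 2 ≠ 0 := fun q hq => (hWp q hq.1).2.2.2.2.1
  have u6 : ∀ q ∈ U, ‖xw (wq q)‖ < 1 / 8 := fun q hq => (hWp q hq.1).2.2.2.2.2.1
  have u7 : ∀ q ∈ U, Ef (wq q) ∈ Complex.slitPlane := fun q hq => (hWp q hq.1).2.2.2.2.2.2
  have hW : DD vq U wq wq := fun q hq => wq_hd hQ (u1 q hq) (fun h => h0 (h ▸ hq))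
  obtain ⟨v1, v2, v3, dv1, dv2, dv3, hv⟩ := ode_v hQ hS hU h0 u1 u2 u3 u4
  obtain ⟨y1, y2, y3, dy1, dy2, dy3, hy⟩ := ode_Y hA hW u3 u4 u5 u6 u7
  -- limits of the coefficients
  have hwt : Tendsto wq (𝓝[≠] 0) (𝓝 0) := by
    have := hwc.tendsto
    rw [hw0] at this
    exact this.mono_left nhdsWithin_le_nhds
  have hRc : ContinuousAt Rf 0 := by
    unfold Rf
    refine (hd_Nw 0).continuousAt.div ?_ (by simp [S6])
    exact ((continuousAt_const.mul ((hd_S6 0).continuousAt.pow 2)).mul (by fun_prop))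
  have hR1c : ContinuousAt Rf1 0 := by
    have hN1 : ContinuousAt N1 0 := by unfold N1; fun_prop
    have hT1 : ContinuousAt T1 0 := by unfold T1; fun_prop
    have hS6c : ContinuousAt (fun w : ℂ => S6 w) 0 := (hd_S6 0).continuousAt
    have hNw : ContinuousAt (fun w : ℂ => Nw w) 0 := (hd_Nw 0).continuousAt
    unfold Rf1
    refine ((hN1.div ((continuousAt_const.mul (hS6c.pow 2)).mul (by fun_prop))
      (by simp [S6])).sub ((hNw.mul hT1).div ((continuousAt_const.mul (hS6c.pow 3)).mul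
        (by fun_prop)) (by simp [S6]))).add ((hNw.mul continuousAt_id).div
        ((continuousAt_const.mul (hS6c.pow 2)).mul (by fun_prop)) (by simp [S6]))
  have hR : Tendsto (fun q => Rf (wq q)) (𝓝[≠] 0) (𝓝 0) := by
    have h1 : Tendsto Rf (𝓝 0) (𝓝 (Rf 0)) := hRc
    have h2 : Rf 0 = 0 := by simp [Rf, Nw]
    rw [h2] at h1
    exact h1.comp hwt
  have hR1 : Tendsto (fun q => Rf1 (wq q)) (𝓝[≠] 0) (𝓝 0) := by
    have h1 : Tendsto Rf1 (𝓝 0) (𝓝 (Rf1 0)) := hR1c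
    have h2 : Rf1 0 = 0 := by simp [Rf1, Nw, N1]
    rw [h2] at h1
    exact h1.comp hwt
  -- analyticity of the difference
  have hGa : AnalyticAt ℂ (Gz 0) (xw (wq 0)) := by
    refine (hA.2.1 0).analyticAt (Metric.isOpen_ball.mem_nhds ?_)
    rw [hw0]; simp [xw]
  have hwa : AnalyticAt ℂ wq 0 := wq_an hQ (by simp)
  have hxa : AnalyticAt ℂ (fun q => xw (wq q)) 0 := by
    unfold xw
    exact hwa.div (analyticAt_const.add (hwa.pow 2)) (by rw [hw0]; simp)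
  have hSa : AnalyticAt ℂ (fun q => S6 (wq q)) 0 := by
    unfold S6
    fun_prop
  have hEa : AnalyticAt ℂ (fun q => Ef (wq q)) 0 := by
    unfold Ef
    refine hSa.div (((analyticAt_const.sub hwa).pow 2).mul
      ((analyticAt_const.add (hwa.pow 2)).pow 2)) (by rw [hw0]; simp)
  have hBa : AnalyticAt ℂ (fun q => Bf (wq q)) 0 := by
    unfold Bf
    exact hEa.cpow analyticAt_const (by rw [hE0]; simp)
  have hha : AnalyticAt ℂ (fun q => Gz 0 (xw (wq q)) * Bf (wq q) - vq q) 0 :=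
    ((AnalyticAt.comp (g := Gz 0) (f := fun q => xw (wq q)) hGa hxa).mul hBa).sub
      (vq_an hQ (by simp))
  have hz : Gz 0 (xw (wq 0)) * Bf (wq 0) - vq 0 = 0 := by
    have h1 : xw (wq 0) = 0 := by rw [hw0]; simp [xw]
    have h2 : Bf (wq 0) = 1 := by unfold Bf; rw [hE0]; simp
    rw [h1, h2, hv0, hA.2.2.2.2]; simp
  have fin := uniq hU h0 hUn u2 (vq_an hQ (by simp)) (by rw [hv0]; exact one_ne_zero)
    (fun q hq => vq_an hQ (u1 q hq)) hha (dy1.sub dv1) (dy2.sub dv2) (dy3.sub dv3) hR hR1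
    (by
      intro q hq
      have e1 := hy q hq
      have e2 := hv q hq
      rw [e1, e2]
      ring) hz
  filter_upwards [fin, hWo.mem_nhds h0W] with q hq hqW
  have e1 : vq q = Gz 0 (xw (wq q)) * Bf (wq q) := by linear_combination -hq
  have e2 := Bf_sq (wq q)
  obtain ⟨_, _, k3, k4, k5, _⟩ := hWp q hqW
  rw [e1, mul_pow, e2]
  unfold Ef
  field_simp

/-- The numerical bound on the ray. -/
theorem exp_bound {y : ℝ} (hy : 67 / 200 ≤ y) : Real.exp (-(2 * π * y)) < 1231 / 10000 := by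
  have h1 : Real.exp (-(2 * π * y)) ≤ Real.exp (-(2 + 1038 / 10000)) := by
    apply Real.exp_le_exp.mpr
    have := Real.pi_gt_d2
    nlinarith
  refine h1.trans_lt ?_
  rw [Real.exp_neg, Real.exp_add]
  have h2 : (7.38 : ℝ) < Real.exp 2 := by
    have h3 := Real.exp_one_gt_d9
    have h4 : Real.exp 2 = Real.exp 1 * Real.exp 1 := by
      rw [← Real.exp_add]; norm_num
    rw [h4]
    nlinarith
  have h5 : (1.109 : ℝ) ≤ Real.exp (1038 / 10000) := by
    have h6 := Real.quadratic_le_exp_of_nonneg (x := 1038 / 10000) (by norm_num)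
    refine le_trans ?_ h6
    norm_num
  have h7 : (7.38 : ℝ) * 1.109 < Real.exp 2 * Real.exp (1038 / 10000) := by
    have : (0 : ℝ) < Real.exp 2 := Real.exp_pos _
    nlinarith
  rw [inv_lt_comm₀ (by positivity) (by norm_num)]
  refine lt_trans ?_ h7
  norm_num

theorem ray_bound (hQ : QsStmt) {y : ℝ} (hy : 67 / 200 ≤ y) :
    ‖wf (I * y)‖ < 1231 / 10000 := by
  have hy0 : 0 < y := by linarith
  have him : (I * (y : ℂ)).im = y := by simp
  have hz : 0 < (I * (y : ℂ)).im := by rw [him]; exact hy0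
  rw [wf_eq hQ hz]
  have hqr : qz (I * (y : ℂ)) = ((Real.exp (-(2 * π * y)) : ℝ) : ℂ) := by
    unfold qz
    rw [Complex.ofReal_exp]
    congr 1
    push_cast
    rw [show 2 * (π : ℂ) * I * (I * y) = 2 * π * (I * I) * y by ring, I_mul_I]
    ring
  unfold wq
  rw [norm_mul, hqr]
  have h1 : Real.exp (-(2 * π * y)) < 1 := by
    have := exp_bound hy
    linarith
  obtain ⟨_, _, _, _, _, _, _, _, _, h⟩ := hQ
  have h2 := h _ (Real.exp_pos _).le h1
  have h3 : ‖((Real.exp (-(2 * π * y)) : ℝ) : ℂ)‖ = Real.exp (-(2 * π * y)) := by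
    rw [Complex.norm_real, Real.norm_eq_abs, abs_of_pos (Real.exp_pos _)]
  rw [h3]
  have h4 := exp_bound hy
  have h5 := Real.exp_pos (-(2 * π * y))
  calc Real.exp (-(2 * π * y)) * ‖aq ((Real.exp (-(2 * π * y)) : ℝ) : ℂ)‖
      ≤ Real.exp (-(2 * π * y)) * 1 := mul_le_mul_of_nonneg_left h2 h5.le
    _ < 1231 / 10000 := by linarith

theorem one_add_sq_bound {w : ℂ} (h : ‖w‖ < 1231 / 10000) : 9848 / 10000 < ‖1 + w ^ 2‖ := by
  have h1 : ‖(1 : ℂ)‖ ≤ ‖1 + w ^ 2‖ + ‖w ^ 2‖ := by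
    have := norm_sub_le (1 + w ^ 2) (w ^ 2)
    simpa using this
  rw [norm_one, norm_pow] at h1
  have h2 : ‖w‖ ^ 2 < (1231 / 10000) ^ 2 := by
    have := norm_nonneg w
    nlinarith
  norm_num at h2
  linarith

theorem xw_bound {w : ℂ} (h : ‖w‖ < 1231 / 10000) : ‖xw w‖ < 1 / 8 := by
  have h1 := one_add_sq_bound h
  unfold xw
  rw [norm_div, div_lt_iff₀ (by linarith)]
  linarith

theorem one_add_sq_ne {w : ℂ} (h : ‖w‖ < 1231 / 10000) : 1 + w ^ 2 ≠ 0 := by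
  intro h1
  have h2 := one_add_sq_bound h
  rw [h1] at h2
  norm_num at h2

theorem qz_an (z : ℂ) : AnalyticAt ℂ qz z := by
  unfold qz
  fun_prop

theorem wf_an (hQ : QsStmt) {z : ℂ} (hz : 0 < z.im) : AnalyticAt ℂ wf z := by
  have h : AnalyticAt ℂ (fun z => wq (qz z)) z :=
    AnalyticAt.comp (g := wq) (f := qz) (wq_an hQ (norm_qz_lt hz)) (qz_an z)
  refine h.congr ?_
  filter_upwards [im_open.mem_nhds hz] with y hy
  exact (wf_eq hQ hy).symm

theorem Vf_an (hQ : QsStmt) {z : ℂ} (hz : 0 < z.im) : AnalyticAt ℂ Vf z := by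
  have h : AnalyticAt ℂ (fun z => vq (qz z)) z :=
    AnalyticAt.comp (g := vq) (f := qz) (vq_an hQ (norm_qz_lt hz)) (qz_an z)
  refine h.congr ?_
  filter_upwards [im_open.mem_nhds hz] with y hy
  exact (Vf_eq hQ hy).symm

theorem mp (hS : SchwStmt) (hA : An2Stmt) (hQ : QsStmt) : MpStmt := by
  set f : ℂ → ℂ := fun z => (Gz 0 (xf z)) ^ 2 * S6 (wf z) with hf
  set g : ℂ → ℂ := fun z => (Vf z) ^ 2 * (1 - wf z) ^ 2 * (1 + (wf z) ^ 2) ^ 2 with hg
  set S : Set ℂ := (fun y : ℝ => I * (y : ℂ)) '' Set.Ici (67 / 200) with hSdef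
  have hSim : ∀ y : ℝ, 67 / 200 ≤ y → 0 < (I * (y : ℂ)).im := by
    intro y hy
    simp
    linarith
  have hfa : ∀ y : ℝ, 67 / 200 ≤ y → AnalyticAt ℂ f (I * (y : ℂ)) := by
    intro y hy
    have hb := ray_bound hQ hy
    have hw := wf_an hQ (hSim y hy)
    have hx : AnalyticAt ℂ xf (I * (y : ℂ)) := by
      unfold xf
      exact hw.div (analyticAt_const.add (hw.pow 2)) (one_add_sq_ne hb)
    have hG : AnalyticAt ℂ (Gz 0) (xf (I * (y : ℂ))) := by
      refine (hA.2.1 0).analyticAt (Metric.isOpen_ball.mem_nhds ?_)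
      rw [mem_ball_zero_iff]
      exact xw_bound hb
    have hG' := AnalyticAt.comp (g := Gz 0) (f := xf) hG hx
    have hS6 : AnalyticAt ℂ (fun z => S6 (wf z)) (I * (y : ℂ)) := by
      unfold S6
      fun_prop
    exact (hG'.pow 2).mul hS6
  have hga : ∀ y : ℝ, 67 / 200 ≤ y → AnalyticAt ℂ g (I * (y : ℂ)) := by
    intro y hy
    have hw := wf_an hQ (hSim y hy)
    have hV := Vf_an hQ (hSim y hy)
    exact ((hV.pow 2).mul ((analyticAt_const.sub hw).pow 2)).mul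
      ((analyticAt_const.add (hw.pow 2)).pow 2)
  -- the identity for large imaginary part
  obtain ⟨ε, hε, hloc⟩ := Metric.eventually_nhds_iff.mp (local_id hS hA hQ)
  have hlarge : ∃ Y : ℝ, ∀ z : ℂ, Y < z.im → f z = g z := by
    refine ⟨max 0 (-Real.log ε / (2 * π)), ?_⟩
    intro z hz
    have hz0 : 0 < z.im := lt_of_le_of_lt (le_max_left _ _) hz
    have hz1 : -Real.log ε / (2 * π) < z.im := lt_of_le_of_lt (le_max_right _ _) hz
    have hq : ‖qz z‖ < ε := by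
      rw [norm_qz, ← Real.lt_log_iff_exp_lt hε]
      rw [div_lt_iff₀ (by positivity)] at hz1
      linarith
    have h := hloc (y := qz z) (by rw [dist_zero_right]; exact hq)
    simp only [hf, hg]
    unfold xf
    rw [wf_eq hQ hz0, Vf_eq hQ hz0]
    exact h
  obtain ⟨Y, hY⟩ := hlarge
  set y0 : ℝ := max (67 / 200) (Y + 1) with hy0
  have hy0a : 67 / 200 ≤ y0 := le_max_left _ _
  have hy0b : Y < y0 := lt_of_lt_of_le (by linarith) (le_max_right _ _)
  have hpre : IsPreconnected S := by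
    refine isPreconnected_Ici.image _ ?_
    fun_prop
  have heq : Set.EqOn f g S := by
    have A1 : AnalyticOnNhd ℂ f S := by
      rintro _ ⟨y, hy, rfl⟩
      exact hfa y hy
    have A2 : AnalyticOnNhd ℂ g S := by
      rintro _ ⟨y, hy, rfl⟩
      exact hga y hy
    refine A1.eqOn_of_preconnected_of_eventuallyEq A2 (z₀ := I * (y0 : ℂ)) hpre
      ⟨y0, hy0a, rfl⟩ ?_
    · have hopen : IsOpen {z : ℂ | Y < z.im} := isOpen_lt continuous_const Complex.continuous_im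
      have hmem : (I * (y0 : ℂ)) ∈ {z : ℂ | Y < z.im} := by
        simpa using hy0b
      filter_upwards [hopen.mem_nhds hmem] with z hz using hY z hz
  intro y hy
  have hb := ray_bound hQ hy
  refine ⟨by linarith, xw_bound hb, ?_⟩
  refine (AnalyticAt.frequently_eq_iff_eventually_eq (hfa y hy) (hga y hy)).mp ?_
  -- points of the ray accumulate
  have hseq : Tendsto (fun n : ℕ => I * ((y + 1 / ((n : ℝ) + 1) : ℝ) : ℂ)) atTop
      (𝓝[≠] (I * (y : ℂ))) := by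
    rw [tendsto_nhdsWithin_iff]
    refine ⟨?_, Eventually.of_forall ?_⟩
    · have h1 : Tendsto (fun n : ℕ => y + 1 / ((n : ℝ) + 1)) atTop (𝓝 (y + 0)) :=
        tendsto_const_nhds.add tendsto_one_div_add_atTop_nhds_zero_nat
      rw [add_zero] at h1
      exact ((Complex.continuous_ofReal.tendsto y).comp h1).const_mul I
    · intro n h
      have h2 : ((y + 1 / ((n : ℝ) + 1) : ℝ) : ℂ) = (y : ℂ) := mul_left_cancel₀ I_ne_zero h
      have h3 : y + 1 / ((n : ℝ) + 1) = y := by exact_mod_cast h2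
      have h4 : (0 : ℝ) < 1 / ((n : ℝ) + 1) := by positivity
      linarith
  refine hseq.frequently (Eventually.frequently (Eventually.of_forall ?_))
  intro n
  have h4 : (0 : ℝ) < 1 / ((n : ℝ) + 1) := by positivity
  exact heq ⟨y + 1 / ((n : ℝ) + 1), by simp only [Set.mem_Ici]; linarith, rfl⟩

end Pool.Agent.H21.Pi
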